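import Pool.Agent.P8H29.OO.Core

/-! # Project AC, package POS: `dim Hom` is positive semidefinite on integer combinations of objects
of a von Neumann regular category -/

set_option autoImplicit false

universe u v

open CategoryTheory Pool.Agent.P8H29.OO

namespace Pool.Agent.P8H88.AC

/-- an object with an idempotent and an integer -/
structure Tr (C : Type u) [Category.{v} C] where
  /-- the object -/
  X : C
  /-- the idempotent -/
  e : X ⟶ X
  he : e ≫ e = e
  /-- the coefficient -/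
  c : ℤ

section

variable {C : Type u} [Category.{v} C] [Preadditive C] [Linear ℚ C]

theorem tau_zero_left {P Q : C} (b : Q ⟶ Q) : tau (0 : P ⟶ P) b = 0 := by
  have := tau_add_left (0 : P ⟶ P) 0 b
  rw [add_zero] at this
  linarith

theorem tau_zero_right {P Q : C} (a : P ⟶ P) : tau a (0 : Q ⟶ Q) = 0 := by
  have := tau_add_right a (0 : Q ⟶ Q) 0
  rw [add_zero] at this
  linarith

/-- the form -/
noncomputable def B (a b : Tr C) : ℚ := a.c * b.c * tau a.e b.e

/-- the double sum -/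
noncomputable def S (m : Multiset (Tr C)) : ℚ := (m.map fun a => (m.map fun b => B a b).sum).sum

theorem S_cons (a : Tr C) (m : Multiset (Tr C)) :
    S (a ::ₘ m) = B a a + (m.map fun b => B a b + B b a).sum + S m := by
  unfold S
  rw [Multiset.map_cons, Multiset.sum_cons, Multiset.map_cons, Multiset.sum_cons, Multiset.sum_map_add]
  have : (m.map fun a' => ((a ::ₘ m).map fun b => B a' b).sum) = m.map fun a' => (B a' a + (m.map fun b => B a' b).sum) := by
    apply Multiset.map_congr rfl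
    intro x _
    rw [Multiset.map_cons, Multiset.sum_cons]
  rw [this, Multiset.sum_map_add]
  ring

/-- omit a zero idempotent -/
theorem S_zero (a : Tr C) (m : Multiset (Tr C)) (h : a.e = 0) : S (a ::ₘ m) = S m := by
  have h1 : ∀ b : Tr C, B a b = 0 := fun b => by unfold B; rw [h, tau_zero_left, mul_zero]
  have h2 : ∀ b : Tr C, B b a = 0 := fun b => by unfold B; rw [h, tau_zero_right, mul_zero]
  rw [S_cons, h1]
  have : (m.map fun b => B a b + B b a) = m.map fun _ => (0 : ℚ) := by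
    apply Multiset.map_congr rfl
    intro b _
    rw [h1, h2, add_zero]
  rw [this]
  simp

/-- split an idempotent -/
theorem S_split (X : C) (e p p' : X ⟶ X) (he : e ≫ e = e) (hp : p ≫ p = p) (hp' : p' ≫ p' = p') (c : ℤ)
    (h : e = p + p') (m : Multiset (Tr C)) : S (⟨X, e, he, c⟩ ::ₘ m) = S (⟨X, p, hp, c⟩ ::ₘ ⟨X, p', hp', c⟩ ::ₘ m) := by
  have h1 : ∀ b : Tr C, B ⟨X, e, he, c⟩ b = B ⟨X, p, hp, c⟩ b + B ⟨X, p', hp', c⟩ b := fun b => by
    unfold B; simp only; rw [h, tau_add_left]; ring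
  have h2 : ∀ b : Tr C, B b ⟨X, e, he, c⟩ = B b ⟨X, p, hp, c⟩ + B b ⟨X, p', hp', c⟩ := fun b => by
    unfold B; simp only; rw [h, tau_add_right]; ring
  rw [S_cons, S_cons, S_cons, Multiset.map_cons, Multiset.sum_cons]
  have h3 : (m.map fun b => B ⟨X, e, he, c⟩ b + B b ⟨X, e, he, c⟩) =
      m.map fun b => (B ⟨X, p, hp, c⟩ b + B b ⟨X, p, hp, c⟩) + (B ⟨X, p', hp', c⟩ b + B b ⟨X, p', hp', c⟩) := by
    apply Multiset.map_congr rfl
    intro b _
    rw [h1, h2]; ring
  rw [h3, Multiset.sum_map_add, h1, h2, h2]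
  ring

/-- `a` and `b` are isomorphic -/
def Iso2 (a b : Tr C) : Prop := ∃ (f : a.X ⟶ b.X) (g : b.X ⟶ a.X), f ≫ g = a.e ∧ g ≫ f = b.e

/-- merge isomorphic triples -/
theorem S_merge (hfin : ∀ X Y : C, Module.Finite ℚ (X ⟶ Y)) (a b : Tr C) (h : Iso2 a b) (m : Multiset (Tr C)) :
    S (a ::ₘ b ::ₘ m) = S (⟨a.X, a.e, a.he, a.c + b.c⟩ ::ₘ m) := by
  obtain ⟨f, g, h1, h2⟩ := h
  have t1 : ∀ {Q : C} (x : Q ⟶ Q), tau b.e x = tau a.e x := fun x => by
    rw [← h1, ← h2]; exact (tau_swap_left hfin x f g).symm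
  have t2 : ∀ {Q : C} (x : Q ⟶ Q), tau x b.e = tau x a.e := fun x => by
    rw [← h1, ← h2]; exact (tau_swap_right hfin x f g).symm
  rw [S_cons, S_cons, S_cons, Multiset.map_cons, Multiset.sum_cons]
  have h3 : (m.map fun x => B ⟨a.X, a.e, a.he, a.c + b.c⟩ x + B x ⟨a.X, a.e, a.he, a.c + b.c⟩) =
      m.map fun x => (B a x + B x a) + (B b x + B x b) := by
    apply Multiset.map_congr rfl
    intro x _
    unfold B
    simp only
    rw [t1, t2]
    push_cast
    ring
  have h5 : (m.map fun x => (B a x + B x a) + (B b x + B x b)).sum =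
      (m.map fun x => B a x + B x a).sum + (m.map fun x => B b x + B x b).sum := Multiset.sum_map_add
  rw [h3, h5]
  have h4 : B ⟨a.X, a.e, a.he, a.c + b.c⟩ ⟨a.X, a.e, a.he, a.c + b.c⟩ = B a a + (B a b + B b a) + B b b := by
    unfold B
    simp only
    rw [t1, t2, t1, t2]
    push_cast
    ring
  rw [h4]
  ring

/-- the measure -/
noncomputable def w (a : Tr C) : ℕ := by
  classical
  exact if a.e = 0 then 1 else 2 * Module.finrank ℚ (LinearMap.range (E a.e a.e)) - 1

variable (hfin : ∀ X Y : C, Module.Finite ℚ (X ⟶ Y))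

include hfin

theorem rank_pos (a : Tr C) (h : a.e ≠ 0) : 1 ≤ Module.finrank ℚ (LinearMap.range (E a.e a.e)) := by
  by_contra hcon
  have h0 : Module.finrank ℚ (LinearMap.range (E a.e a.e)) = 0 := by omega
  apply h
  apply tau_idem_zero hfin a.e a.e a.he a.he
  · rw [tau_idem hfin a.e a.e a.he a.he, h0, Nat.cast_zero]
  · rw [a.he, a.he]

theorem w_pos (a : Tr C) : 1 ≤ w a := by
  unfold w
  split_ifs with h
  · exact le_rfl
  · have := rank_pos hfin a h
    omega

theorem w_split (X : C) (e p p' : X ⟶ X) (he : e ≫ e = e) (hp : p ≫ p = p) (hp' : p' ≫ p' = p') (c c' : ℤ)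
    (h : e = p + p') (h0 : p ≠ 0) (h0' : p' ≠ 0) (hpp : p ≫ p' = 0) :
    w (⟨X, p, hp, c'⟩ : Tr C) + w (⟨X, p', hp', c'⟩ : Tr C) < w (⟨X, e, he, c⟩ : Tr C) := by
  have r1 := rank_pos hfin (⟨X, p, hp, c'⟩ : Tr C) h0
  have r2 := rank_pos hfin (⟨X, p', hp', c'⟩ : Tr C) h0'
  have hle : (Module.finrank ℚ (LinearMap.range (E p p)) : ℚ) + Module.finrank ℚ (LinearMap.range (E p' p')) ≤
      Module.finrank ℚ (LinearMap.range (E e e)) := by
    rw [← tau_idem hfin p p hp hp, ← tau_idem hfin p' p' hp' hp', ← tau_idem hfin e e he he, h, tau_add_left,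
      tau_add_right, tau_add_right]
    have := tau_idem_nonneg hfin p p' hp hp'
    have := tau_idem_nonneg hfin p' p hp' hp
    linarith
  have hle' : Module.finrank ℚ (LinearMap.range (E p p)) + Module.finrank ℚ (LinearMap.range (E p' p')) ≤
      Module.finrank ℚ (LinearMap.range (E e e)) := by exact_mod_cast hle
  have hene : e ≠ 0 := by
    intro h1
    apply h0
    have : p ≫ e = 0 := by rw [h1, Limits.comp_zero]
    rw [h, Preadditive.comp_add, hp, hpp, add_zero] at this
    exact this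
  unfold w
  simp only at r1 r2 ⊢
  rw [if_neg h0, if_neg h0', if_neg hene]
  omega

variable (hreg : ∀ (X Y : C) (f : X ⟶ Y), ∃ g : Y ⟶ X, f ≫ g ≫ f = f)

include hreg

omit hfin in
/-- primitive nonisomorphic idempotents -/
theorem tau_prim (a b : Tr C)
    (ha : ∀ p : a.X ⟶ a.X, p ≫ p = p → a.e ≫ p = p → p ≫ a.e = p → p = 0 ∨ p = a.e)
    (hb : ∀ p : b.X ⟶ b.X, p ≫ p = p → b.e ≫ p = p → p ≫ b.e = p → p = 0 ∨ p = b.e)
    (hab : ¬ Iso2 a b) : tau a.e b.e = 0 := by
  have key : ∀ h : a.X ⟶ b.X, a.e ≫ h ≫ b.e = h → h = 0 := by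
    intro h hh
    by_contra hne
    have xh : a.e ≫ h = h := by
      conv_lhs => rw [← hh]
      rw [← Category.assoc, a.he, hh]
    have hy : h ≫ b.e = h := by
      conv_lhs => rw [← hh]
      rw [Category.assoc, Category.assoc, b.he, hh]
    obtain ⟨h₀, hh₀⟩ := hreg a.X b.X h
    obtain ⟨h', hh'⟩ : ∃ h' : b.X ⟶ a.X, h' = b.e ≫ h₀ ≫ a.e := ⟨_, rfl⟩
    have e1 : h ≫ h' ≫ h = h := by
      rw [hh']
      have : h ≫ (b.e ≫ h₀ ≫ a.e) ≫ h = (h ≫ b.e) ≫ h₀ ≫ (a.e ≫ h) := by simp only [Category.assoc]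
      rw [this, hy, xh, hh₀]
    have yh' : b.e ≫ h' = h' := by rw [hh', ← Category.assoc, b.he]
    have h'x : h' ≫ a.e = h' := by rw [hh', Category.assoc, Category.assoc, a.he]
    obtain ⟨k, hk⟩ : ∃ k : b.X ⟶ a.X, k = h' ≫ h ≫ h' := ⟨_, rfl⟩
    have yk : b.e ≫ k = k := by rw [hk, ← Category.assoc, yh']
    have kx : k ≫ a.e = k := by rw [hk, Category.assoc, Category.assoc, h'x]
    have e2 : h ≫ k ≫ h = h := by
      rw [hk]
      have : h ≫ (h' ≫ h ≫ h') ≫ h = (h ≫ h' ≫ h) ≫ h' ≫ h := by simp only [Category.assoc]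
      rw [this, e1, e1]
    have e3 : k ≫ h ≫ k = k := by
      have : k ≫ h ≫ k = h' ≫ (h ≫ k ≫ h) ≫ h' := by
        conv_lhs => rw [hk]
        have : (h' ≫ h ≫ h') ≫ h ≫ (h' ≫ h ≫ h') = h' ≫ (h ≫ (h' ≫ h ≫ h') ≫ h) ≫ h' := by simp only [Category.assoc]
        rw [this, ← hk]
      rw [this, e2, hk]
    -- the idempotents
    have p1 : (h ≫ k) ≫ (h ≫ k) = h ≫ k := by
      have : (h ≫ k) ≫ (h ≫ k) = (h ≫ k ≫ h) ≫ k := by simp only [Category.assoc]
      rw [this, e2]
    have p2 : (k ≫ h) ≫ (k ≫ h) = k ≫ h := by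
      have : (k ≫ h) ≫ (k ≫ h) = (k ≫ h ≫ k) ≫ h := by simp only [Category.assoc]
      rw [this, e3]
    have q1 := ha (h ≫ k) p1 (by rw [← Category.assoc, xh]) (by rw [Category.assoc, kx])
    have q2 := hb (k ≫ h) p2 (by rw [← Category.assoc, yk]) (by rw [Category.assoc, hy])
    rcases q1 with q1 | q1
    · apply hne
      rw [← e2, ← Category.assoc, q1, Limits.zero_comp]
    · rcases q2 with q2 | q2
      · apply hne
        rw [← e2, q2, Limits.comp_zero]
      · exact hab ⟨h, k, q1, q2⟩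
  have : E a.e b.e = 0 := by
    ext u
    rw [E_apply, LinearMap.zero_apply]
    apply key
    have : a.e ≫ (a.e ≫ u ≫ b.e) ≫ b.e = (a.e ≫ a.e) ≫ u ≫ (b.e ≫ b.e) := by simp only [Category.assoc]
    rw [this, a.he, b.he]
  unfold tau
  rw [this, map_zero]

omit hreg in
/-- the terminal case -/
theorem S_term (m : Multiset (Tr C))
    (h : ∀ (a b : Tr C) (m' : Multiset (Tr C)), m = a ::ₘ b ::ₘ m' → tau a.e b.e = 0) : 0 ≤ S m := by
  induction m using Multiset.induction_on with
  | empty => simp [S]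
  | cons a m ih =>
    have ih' := ih fun b c m' hm => h b c (a ::ₘ m') (by
      rw [hm, Multiset.cons_swap a b, Multiset.cons_swap a c])
    have h1 : ∀ b ∈ m, tau a.e b.e = 0 ∧ tau b.e a.e = 0 := by
      intro b hb
      obtain ⟨m', rfl⟩ := Multiset.exists_cons_of_mem hb
      exact ⟨h a b m' rfl, h b a m' (Multiset.cons_swap a b m')⟩
    rw [S_cons]
    have h2 : (m.map fun b => B a b + B b a) = m.map fun _ => (0 : ℚ) := by
      apply Multiset.map_congr rfl
      intro b hb
      unfold B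
      rw [(h1 b hb).1, (h1 b hb).2]
      ring
    rw [h2]
    have h3 : 0 ≤ B a a := by
      unfold B
      have := tau_idem_nonneg hfin a.e a.e a.he a.he
      have h4 : (0 : ℚ) ≤ (a.c : ℚ) * a.c := mul_self_nonneg _
      exact mul_nonneg h4 this
    simp only [Multiset.map_const', Multiset.sum_replicate, smul_zero, add_zero]
    linarith

theorem S_nonneg : ∀ (n : ℕ) (m : Multiset (Tr C)), (m.map w).sum = n → 0 ≤ S m := by
  intro n
  induction n using Nat.strong_induction_on with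
  | _ n ih =>
    intro m hm
    by_cases h1 : ∃ a ∈ m, a.e = 0
    · obtain ⟨a, ha, h0⟩ := h1
      obtain ⟨m', rfl⟩ := Multiset.exists_cons_of_mem ha
      rw [S_zero a m' h0]
      rw [Multiset.map_cons, Multiset.sum_cons] at hm
      have := w_pos hfin a
      exact ih (m'.map w).sum (by omega) m' rfl
    · push Not at h1
      by_cases h2 : ∃ a ∈ m, ∃ p : a.X ⟶ a.X, p ≫ p = p ∧ a.e ≫ p = p ∧ p ≫ a.e = p ∧ p ≠ 0 ∧ p ≠ a.e
      · obtain ⟨a, ha, p, hp, hep, hpe, hp0, hpne⟩ := h2
        obtain ⟨m', rfl⟩ := Multiset.exists_cons_of_mem ha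
        have hp' : (a.e - p) ≫ (a.e - p) = a.e - p := by
          rw [Preadditive.comp_sub, Preadditive.sub_comp, Preadditive.sub_comp, a.he, hep, hpe, hp]
          abel
        have e1 := S_split a.X a.e p (a.e - p) a.he hp hp' a.c (by abel) m'
        have e2 : (⟨a.X, a.e, a.he, a.c⟩ : Tr C) = a := rfl
        rw [e2] at e1
        rw [e1]
        have hw := w_split hfin a.X a.e p (a.e - p) a.he hp hp' a.c a.c (by abel) hp0
          (sub_ne_zero.mpr (Ne.symm hpne)) (by rw [Preadditive.comp_sub, hpe, hp, sub_self])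
        rw [e2] at hw
        rw [Multiset.map_cons, Multiset.sum_cons] at hm
        refine ih _ ?_ _ rfl
        rw [Multiset.map_cons, Multiset.sum_cons, Multiset.map_cons, Multiset.sum_cons]
        omega
      · push Not at h2
        by_cases h3 : ∃ (a b : Tr C) (m' : Multiset (Tr C)), m = a ::ₘ b ::ₘ m' ∧ Iso2 a b
        · obtain ⟨a, b, m', rfl, hab⟩ := h3
          rw [S_merge hfin a b hab m']
          rw [Multiset.map_cons, Multiset.sum_cons, Multiset.map_cons, Multiset.sum_cons] at hm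
          refine ih _ ?_ _ rfl
          rw [Multiset.map_cons, Multiset.sum_cons]
          have hwb := w_pos hfin b
          have hwa : w (⟨a.X, a.e, a.he, a.c + b.c⟩ : Tr C) = w a := rfl
          omega
        · push Not at h3
          apply S_term hfin m
          intro a b m' hm'
          have hprim : ∀ a ∈ m, ∀ p : a.X ⟶ a.X, p ≫ p = p → a.e ≫ p = p → p ≫ a.e = p → p = 0 ∨ p = a.e := by
            intro a ha p q1 q2 q3
            by_contra hcon
            push Not at hcon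
            exact hcon.2 (h2 a ha p q1 q2 q3 hcon.1)
          exact tau_prim hreg a b (hprim a (by rw [hm']; simp)) (hprim b (by rw [hm']; simp)) (h3 a b m' hm')

theorem pos_core (ι : Type) [Fintype ι] (X : ι → C) (c : ι → ℤ) :
    0 ≤ ∑ i, ∑ j, c i * c j * (Module.finrank ℚ (X i ⟶ X j) : ℤ) := by
  have h := S_nonneg hfin hreg _ ((Finset.univ : Finset ι).val.map fun i =>
    (⟨X i, 𝟙 (X i), Category.comp_id _, c i⟩ : Tr C)) rfl
  have e : S ((Finset.univ : Finset ι).val.map fun i => (⟨X i, 𝟙 (X i), Category.comp_id _, c i⟩ : Tr C)) =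
      ((∑ i, ∑ j, c i * c j * (Module.finrank ℚ (X i ⟶ X j) : ℤ) : ℤ) : ℚ) := by
    unfold S
    rw [Multiset.map_map]
    push_cast
    change ∑ i, _ = _
    apply Finset.sum_congr rfl
    intro i _
    simp only [Function.comp]
    rw [Multiset.map_map]
    change ∑ j, _ = _
    apply Finset.sum_congr rfl
    intro j _
    simp only [Function.comp, B]
    rw [tau_one hfin]
  rw [e] at h
  exact_mod_cast h

end

end Pool.Agent.P8H88.AC
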